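import Mathlib

/-! `P ∘ g` can be intertwined with (even conjugate to) a non-integrable `P` without `g` being a symmetry of `P`. -/

set_option autoImplicit false

namespace Pool.Agent.Results.MP_2eeab0_an.Counter

open Polynomial

variable {K : Type*} [Field K]

/-- `(z, w) ↦ (P z, Q w)` maps an irreducible curve, projecting onto both axes, onto itself -/
def Intertwined (P Q : K[X]) : Prop :=
  ∃ F : MvPolynomial (Fin 2) K, Irreducible F ∧
    (∀ z, ∃ w, MvPolynomial.eval ![z, w] F = 0) ∧ (∀ w, ∃ z, MvPolynomial.eval ![z, w] F = 0) ∧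
    (fun p : K × K => (P.eval p.1, Q.eval p.2)) '' {p | MvPolynomial.eval ![p.1, p.2] F = 0} =
      {p | MvPolynomial.eval ![p.1, p.2] F = 0}

/-- affinely conjugate to `z ^ d`, `T_d` or `-T_d`, where `T_d (w + w⁻¹) = w ^ d + w⁻ᵈ` -/
def Integrable (P : K[X]) : Prop :=
  ∃ A : K[X], A.natDegree = 1 ∧ (A.comp P = (X ^ P.natDegree : K[X]).comp A ∨
    A.comp P = (dickson 1 1 P.natDegree).comp A ∨ A.comp P = (-dickson 1 1 P.natDegree).comp A)

lemma irr (a b : K) : Irreducible (MvPolynomial.X 0 - (MvPolynomial.C a * MvPolynomial.X 1 + MvPolynomial.C b) :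
    MvPolynomial (Fin 2) K) := by
  rw [← MulEquiv.irreducible_iff (MvPolynomial.finSuccEquiv K 1)]
  have e : MvPolynomial.finSuccEquiv K 1 (MvPolynomial.X 0 - (MvPolynomial.C a * MvPolynomial.X 1 + MvPolynomial.C b)) =
      X - C (MvPolynomial.C a * MvPolynomial.X 0 + MvPolynomial.C b) := by
    have h1 := MvPolynomial.finSuccEquiv_X_succ (R := K) (n := 1) (j := 0)
    have h2 := fun r : K => (MvPolynomial.finSuccEquiv K 1).commutes r
    simp only [MvPolynomial.algebraMap_eq, Polynomial.algebraMap_apply] at h2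
    rw [map_sub, map_add, map_mul, MvPolynomial.finSuccEquiv_X_zero, h2, h2, show (1 : Fin 2) = Fin.succ 0 from rfl, h1]
    simp
  rw [e]
  exact irreducible_X_sub_C _

lemma inter [IsAlgClosed K] {P Q : K[X]} (hQ : 0 < Q.natDegree) {a b : K} (ha : a ≠ 0)
    (h : ∀ w, P.eval (a * w + b) = a * Q.eval w + b) : Intertwined P Q := by
  refine ⟨_, irr a b, fun z => ⟨(z - b) / a, ?_⟩, fun w => ⟨a * w + b, by simp⟩, ?_⟩
  · simp
    field_simp
    ring
  · ext ⟨z, w⟩
    simp only [Set.mem_image, Set.mem_ofPred_eq, map_sub, map_add, map_mul, MvPolynomial.eval_X, MvPolynomial.eval_C,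
      Matrix.cons_val_zero, Matrix.cons_val_one, sub_eq_zero, Prod.mk.injEq]
    constructor
    · rintro ⟨⟨x, y⟩, e, rfl, rfl⟩
      simp only at e ⊢
      rw [e, h]
    · intro e
      obtain ⟨y, hy⟩ := IsAlgClosed.exists_root (Q - C w) (by
        rw [degree_sub_C (natDegree_pos_iff_degree_pos.1 hQ)]; exact (natDegree_pos_iff_degree_pos.1 hQ).ne')
      have hy' : Q.eval y = w := by simpa [sub_eq_zero] using hy
      exact ⟨(a * y + b, y), rfl, by rw [h, hy', e], hy'⟩

lemma aff {A : K[X]} (hA : A.natDegree = 1) : ∃ a b : K, a ≠ 0 ∧ ∀ x, A.eval x = a * x + b := by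
  obtain ⟨a, ha, b, rfl⟩ := natDegree_eq_one.1 hA
  exact ⟨a, b, ha, fun x => by simp⟩

theorem result (K : Type*) [Field K] [IsAlgClosed K] [CharZero K] :
    ∀ d ∈ ({2, 3} : Set ℕ), ∃ (P : K[X]) (a b : K), P.Monic ∧ P.natDegree = d ∧ P.nextCoeff = 0 ∧ ¬Integrable P ∧
      a ≠ 0 ∧ b ≠ 0 ∧ Intertwined (P.comp (C a * X + C b)) P := by
  intro d hd
  rcases hd with rfl | rfl
  · have d1 : (X ^ 2 + C 1 : K[X]).natDegree = 2 := by compute_degree!
    refine ⟨X ^ 2 + C 1, 2, -3 / 2, by monicity!, d1, ?_, ?_, by norm_num, by norm_num,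
      inter (a := 1 / 4) (b := 3 / 4) (by rw [d1]; norm_num) (by norm_num) fun w => ?_⟩
    · rw [nextCoeff_of_natDegree_pos (by rw [d1]; norm_num), d1]
      simp [coeff_one, coeff_X_pow]
    · rintro ⟨A, hA, h⟩
      obtain ⟨a, b, ha, e⟩ := aff hA
      rw [d1] at h
      rcases h with h | h | h <;>
      · have h0 := congrArg (eval 0) h
        have h1 := congrArg (eval 1) h
        have h2 := congrArg (eval (-1)) h
        simp [eval_comp, e] at h0 h1 h2
        have hb : b = 0 := by
          have : a * b * 4 = 0 := by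
            first | linear_combination h2 - h1 | linear_combination h1 - h2
          simpa [ha] using this
        subst hb
        first
          | exact ha (by linear_combination h0)
          | (have : (6 : K) = 0 := by linear_combination -(a - 4) * h0 - h1
             norm_num at this)
          | (have : (6 : K) = 0 := by linear_combination h1 - (a + 4) * h0
             norm_num at this)
    · simp
      ring
  · have d1 : (X ^ 3 + X + C 1 : K[X]).natDegree = 3 := by compute_degree!
    refine ⟨X ^ 3 + X + C 1, 1, -2, by monicity!, d1, ?_, ?_, by norm_num, by norm_num,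
      inter (a := -1) (b := 2) (by rw [d1]; norm_num) (by norm_num) fun w => ?_⟩
    · rw [nextCoeff_of_natDegree_pos (by rw [d1]; norm_num), d1]
      simp [coeff_one, coeff_X_pow, coeff_X]
    · rintro ⟨A, hA, h⟩
      obtain ⟨a, b, ha, e⟩ := aff hA
      rw [d1] at h
      rcases h with h | h | h <;>
      · have h0 := congrArg (eval 0) h
        have h1 := congrArg (eval 1) h
        have h2 := congrArg (eval (-1)) h
        simp [eval_comp, e, dickson] at h0 h1 h2
        have hb : b = 0 := by
          have : a * a * b * 6 = 0 := by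
            first | linear_combination h2 + h1 - 2 * h0 | linear_combination 2 * h0 - h1 - h2
          simpa [ha] using this
        subst hb
        exact ha (by linear_combination h0)
    · simp
      ring

end Pool.Agent.Results.MP_2eeab0_an.Counter
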